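import Pool.Agent.N844.QR.Pen

/-!
For every monic `f` of degree `2 g + 1` an explicit pencil of quadrics in `P^(2g+1)` with the discriminant
`z F(x, z)`, whose base locus contains a rational `(g - 1)`-plane (the forms `τ(λ μ)`, `τ(λ θ μ)` on
`R[θ] = R[x] / (f)`, `τ` the coefficient of `θ ^ (2 g)`).
-/

set_option autoImplicit false

namespace Pool.Agent.N844.QR

open Finset Matrix Polynomial

/-- the determinant of an antitriangular matrix -/
theorem det_anti {R : Type*} [CommRing R] : ∀ (n : ℕ) (A : Matrix (Fin n) (Fin n) R),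
    (∀ i j : Fin n, (i : ℕ) + j + 1 < n → A i j = 0) → (∀ i j : Fin n, (i : ℕ) + j + 1 = n → A i j = 1) →
    A.det = (-1) ^ (n * (n - 1) / 2) := by
  intro n
  induction n with
  | zero => intro A _ _; simp
  | succ n ih =>
    intro A h0 h1
    rw [det_succ_row_zero, Finset.sum_eq_single (Fin.last n)]
    · rw [h1 0 (Fin.last n) (by simp), mul_one, Fin.succAbove_last, Fin.val_last,
        ih (A.submatrix Fin.succ Fin.castSucc) (fun i j hij => h0 _ _ (by
          simp only [Fin.val_succ, Fin.val_castSucc]; omega))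
          (fun i j hij => h1 _ _ (by simp only [Fin.val_succ, Fin.val_castSucc]; omega)), ← pow_add]
      congr 1
      rw [Nat.add_sub_cancel]
      have e : (n + 1) * n = 2 * n + n * (n - 1) := by
        cases n with
        | zero => rfl
        | succ k => simp only [Nat.add_sub_cancel]; ring
      rw [e, Nat.mul_add_div (by norm_num)]
    · intro j _ hj
      have : (j : ℕ) < n := by
        have h2 := j.2
        have h3 : (j : ℕ) ≠ n := fun h => hj (Fin.ext (by rw [h, Fin.val_last]))
        omega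
      rw [h0 0 j (by simp; omega), mul_zero, zero_mul]
    · intro h
      exact absurd (Finset.mem_univ _) h

section ex

variable {R : Type*} [CommRing R] [IsDomain R] {g : ℕ} {f : R[X]} (hf : f.Monic)
  (hd : f.natDegree = 2 * g + 1)

/-- the ring `R[θ]` -/
abbrev Sr (f : R[X]) : Type _ := AdjoinRoot f

/-- the basis `1, θ, …, θ ^ (2 g)` -/
noncomputable def bs : Module.Basis (Fin (2 * g + 1)) R (Sr f) :=
  (AdjoinRoot.powerBasis' hf).basis.reindex (finCongr hd)

lemma bs_apply (i : Fin (2 * g + 1)) : bs hf hd i = AdjoinRoot.root f ^ (i : ℕ) := by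
  unfold bs
  rw [Module.Basis.reindex_apply, PowerBasis.basis_eq_pow, AdjoinRoot.powerBasis'_gen]
  rfl

/-- the coefficient of `θ ^ (2 g)` -/
noncomputable def tau : Sr f →ₗ[R] R := (bs hf hd).coord (Fin.last (2 * g))

lemma tau_pow {i : ℕ} (hi : i < 2 * g) : tau hf hd (AdjoinRoot.root f ^ i) = 0 := by
  have h := bs_apply hf hd ⟨i, by omega⟩
  unfold tau
  rw [← h, Module.Basis.coord_apply, Module.Basis.repr_self, Finsupp.single_apply, if_neg]
  intro h1
  have := congrArg Fin.val h1
  simp only [Fin.val_last] at this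
  omega

lemma tau_top : tau hf hd (AdjoinRoot.root f ^ (2 * g)) = 1 := by
  have h := bs_apply hf hd (Fin.last (2 * g))
  rw [Fin.val_last] at h
  unfold tau
  rw [← h, Module.Basis.coord_apply, Module.Basis.repr_self, Finsupp.single_eq_same]

/-- multiplication by `θ` -/
noncomputable def cm : Matrix (Fin (2 * g + 1)) (Fin (2 * g + 1)) R :=
  Algebra.leftMulMatrix (bs hf hd) (AdjoinRoot.root f)

lemma cm_charpoly : (cm hf hd).charpoly = f := by
  have h1 : aeval (AdjoinRoot.root f) (cm hf hd).charpoly = 0 := by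
    apply Algebra.leftMulMatrix_injective (bs hf hd)
    rw [map_zero, ← Polynomial.aeval_algHom_apply]
    exact Matrix.aeval_self_charpoly (cm hf hd)
  have h2 : f ∣ (cm hf hd).charpoly := by
    rw [AdjoinRoot.aeval_eq] at h1
    exact AdjoinRoot.mk_eq_zero.1 h1
  refine eq_of_monic_of_dvd_of_natDegree_le hf (charpoly_monic _) h2 ?_
  rw [charpoly_natDegree_eq_dim, Fintype.card_fin, hd]

/-- the form `τ(λ μ)` -/
noncomputable def gA : Matrix (Fin (2 * g + 1)) (Fin (2 * g + 1)) R :=
  Matrix.of fun i j => tau hf hd (AdjoinRoot.root f ^ ((i : ℕ) + j))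

/-- the form `τ(λ θ μ)` -/
noncomputable def gB : Matrix (Fin (2 * g + 1)) (Fin (2 * g + 1)) R :=
  Matrix.of fun i j => tau hf hd (AdjoinRoot.root f ^ ((i : ℕ) + j + 1))

lemma gA_mul : gA hf hd * cm hf hd = gB hf hd := by
  ext i j
  rw [Matrix.mul_apply]
  unfold gA gB
  simp only [Matrix.of_apply]
  have h1 : AdjoinRoot.root f * bs hf hd j = ∑ k, cm hf hd k j • bs hf hd k := by
    have := (bs hf hd).sum_repr (AdjoinRoot.root f * bs hf hd j)
    rw [← this]
    refine Finset.sum_congr rfl fun k _ => ?_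
    unfold cm
    rw [Algebra.leftMulMatrix_eq_repr_mul]
  have h2 : AdjoinRoot.root f ^ ((i : ℕ) + j + 1) =
      ∑ k, cm hf hd k j • (AdjoinRoot.root f ^ ((i : ℕ) + (k : ℕ))) := by
    have e : AdjoinRoot.root f ^ ((i : ℕ) + j + 1) =
        AdjoinRoot.root f ^ (i : ℕ) * (AdjoinRoot.root f * bs hf hd j) := by
      rw [bs_apply]; ring
    rw [e, h1, Finset.mul_sum]
    refine Finset.sum_congr rfl fun k _ => ?_
    rw [bs_apply, mul_smul_comm, ← pow_add]
  rw [h2, map_sum]
  refine Finset.sum_congr rfl fun k _ => ?_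
  rw [map_smul, smul_eq_mul, mul_comm]

lemma gA_det : (gA hf hd).det = (-1) ^ g := by
  rw [det_anti (2 * g + 1) (gA hf hd) (fun i j h => tau_pow hf hd (by omega)) (fun i j h => by
    unfold gA
    rw [Matrix.of_apply, show (i : ℕ) + j = 2 * g by omega]
    exact tau_top hf hd)]
  have e : (2 * g + 1) * (2 * g + 1 - 1) / 2 = g * (2 * g + 1) := by
    rw [Nat.add_sub_cancel, show (2 * g + 1) * (2 * g) = 2 * (g * (2 * g + 1)) by ring,
      Nat.mul_div_cancel_left _ (by norm_num)]
  rw [e, show g * (2 * g + 1) = 2 * (g * g) + g by ring, pow_add, pow_mul]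
  norm_num

/-- the homogeneous characteristic polynomial -/
lemma det_cm (x z : R) : (x • (1 : Matrix (Fin (2 * g + 1)) (Fin (2 * g + 1)) R) - z • cm hf hd).det =
    hom g f x z := by
  set φ := algebraMap R (FractionRing R) with hφ
  have key : ∀ x z : FractionRing R,
      (x • (1 : Matrix (Fin (2 * g + 1)) (Fin (2 * g + 1)) (FractionRing R)) -
      z • (cm hf hd).map φ).det =
      ∑ i ∈ range (2 * g + 2), φ (f.coeff i) * x ^ i * z ^ (2 * g + 1 - i) := by
    intro x z
    by_cases hz : z = 0
    · subst hz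
      rw [zero_smul, sub_zero, det_smul, det_one, mul_one, Fintype.card_fin,
        Finset.sum_range_succ, Finset.sum_eq_zero, zero_add, Nat.sub_self, pow_zero, mul_one]
      · have e : f.coeff (2 * g + 1) = 1 := by
          rw [← hd]
          exact hf
        rw [e, map_one, one_mul]
      · intro i hi
        rw [zero_pow (by have := Finset.mem_range.1 hi; omega), mul_zero]
    · have e1 : x • (1 : Matrix (Fin (2 * g + 1)) (Fin (2 * g + 1)) (FractionRing R)) -
          z • (cm hf hd).map φ =
          z • ((x / z) • (1 : Matrix (Fin (2 * g + 1)) (Fin (2 * g + 1)) (FractionRing R)) -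
            (cm hf hd).map φ) := by
        rw [smul_sub, smul_smul, mul_div_cancel₀ _ hz]
      have e2 : ((x / z) • (1 : Matrix (Fin (2 * g + 1)) (Fin (2 * g + 1)) (FractionRing R)) -
            (cm hf hd).map φ).det = (f.map φ).eval (x / z) := by
        conv_rhs => rw [← cm_charpoly hf hd]
        rw [← charpoly_map, eval_charpoly, smul_one_eq_diagonal]
        rfl
      rw [e1, det_smul, Fintype.card_fin, e2, eval_map, eval₂_eq_sum_range, hd, Finset.mul_sum]
      refine Finset.sum_congr rfl fun i hi => ?_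
      have hi : i ≤ 2 * g + 1 := by have := Finset.mem_range.1 hi; omega
      rw [div_pow, ← pow_sub_mul_pow z hi]
      have := pow_ne_zero i hz
      field_simp
  have h1 := key (φ x) (φ z)
  have e : (φ x) • (1 : Matrix (Fin (2 * g + 1)) (Fin (2 * g + 1)) (FractionRing R)) -
      (φ z) • (cm hf hd).map φ =
      (x • (1 : Matrix (Fin (2 * g + 1)) (Fin (2 * g + 1)) R) - z • cm hf hd).map φ := by
    ext i j
    simp only [Matrix.sub_apply, Matrix.smul_apply, Matrix.map_apply, smul_eq_mul, Matrix.one_apply,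
      map_sub, map_mul]
    split_ifs <;> simp
  have e' : ((x • (1 : Matrix (Fin (2 * g + 1)) (Fin (2 * g + 1)) R) - z • cm hf hd).map φ).det =
      φ (x • (1 : Matrix (Fin (2 * g + 1)) (Fin (2 * g + 1)) R) - z • cm hf hd).det := by
    rw [RingHom.map_det]
    rfl
  rw [e, e'] at h1
  have h2 : φ (hom g f x z) =
      ∑ i ∈ range (2 * g + 2), φ (f.coeff i) * (φ x) ^ i * (φ z) ^ (2 * g + 1 - i) := by
    unfold hom
    simp only [map_sum, map_mul, map_pow]
  rw [← h2] at h1
  exact IsFractionRing.injective R (FractionRing R) h1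

lemma det_g (x z : R) : (-1) ^ g * (x • gA hf hd - z • gB hf hd).det = hom g f x z := by
  have e : x • gA hf hd - z • gB hf hd =
      gA hf hd * (x • (1 : Matrix (Fin (2 * g + 1)) (Fin (2 * g + 1)) R) - z • cm hf hd) := by
    rw [Matrix.mul_sub, Matrix.mul_smul, Matrix.mul_smul, Matrix.mul_one, gA_mul]
  rw [e, det_mul, gA_det, det_cm, ← mul_assoc, ← mul_pow]
  norm_num

/-- the index set -/
def es (g : ℕ) : Fin (2 * g + 1) ⊕ Fin 1 ≃ Fin (2 * g + 2) := finSumFinEquiv

lemma es_inl (i : Fin (2 * g + 1)) : ((es g (Sum.inl i) : Fin (2 * g + 2)) : ℕ) = i := rfl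

/-- the pencil -/
noncomputable def eA : Matrix (Fin (2 * g + 2)) (Fin (2 * g + 2)) R :=
  (fromBlocks (gA hf hd) 0 0 (0 : Matrix (Fin 1) (Fin 1) R)).reindex (es g) (es g)

/-- the pencil -/
noncomputable def eB : Matrix (Fin (2 * g + 2)) (Fin (2 * g + 2)) R :=
  (fromBlocks (gB hf hd) 0 0 (1 : Matrix (Fin 1) (Fin 1) R)).reindex (es g) (es g)

lemma gA_symm : (gA hf hd).IsSymm := by
  ext i j
  unfold gA
  rw [Matrix.transpose_apply, Matrix.of_apply, Matrix.of_apply, add_comm]

lemma gB_symm : (gB hf hd).IsSymm := by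
  ext i j
  unfold gB
  rw [Matrix.transpose_apply, Matrix.of_apply, Matrix.of_apply, add_comm (j : ℕ)]

theorem ex_pen : IsPen g f 1 (eA hf hd) (eB hf hd) := by
  refine ⟨?_, ?_, fun x z => ?_⟩
  · unfold eA
    exact (Matrix.IsSymm.fromBlocks (gA_symm hf hd) rfl (by simp)).submatrix _
  · unfold eB
    exact (Matrix.IsSymm.fromBlocks (gB_symm hf hd) rfl (by simp)).submatrix _
  · have e : x • eA hf hd - z • eB hf hd = (fromBlocks (x • gA hf hd - z • gB hf hd) 0 0
        (-(z • (1 : Matrix (Fin 1) (Fin 1) R)))).reindex (es g) (es g) := by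
      unfold eA eB
      ext i j
      rw [Matrix.sub_apply, Matrix.smul_apply, Matrix.smul_apply, Matrix.reindex_apply,
        Matrix.reindex_apply, Matrix.reindex_apply, Matrix.submatrix_apply, Matrix.submatrix_apply,
        Matrix.submatrix_apply]
      generalize (es g).symm i = i'
      generalize (es g).symm j = j'
      rcases i' with i' | i' <;> rcases j' with j' | j'
      · rw [Matrix.fromBlocks_apply₁₁, Matrix.fromBlocks_apply₁₁, Matrix.fromBlocks_apply₁₁,
          Matrix.sub_apply, Matrix.smul_apply, Matrix.smul_apply]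
      · rw [Matrix.fromBlocks_apply₁₂, Matrix.fromBlocks_apply₁₂, Matrix.fromBlocks_apply₁₂,
          Matrix.zero_apply, smul_zero, smul_zero, sub_zero]
      · rw [Matrix.fromBlocks_apply₂₁, Matrix.fromBlocks_apply₂₁, Matrix.fromBlocks_apply₂₁,
          Matrix.zero_apply, smul_zero, smul_zero, sub_zero]
      · rw [Matrix.fromBlocks_apply₂₂, Matrix.fromBlocks_apply₂₂, Matrix.fromBlocks_apply₂₂,
          Matrix.zero_apply, smul_zero, zero_sub, Matrix.neg_apply, Matrix.smul_apply]
    have h := det_g hf hd x z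
    rw [e, det_reindex_self, det_fromBlocks_zero₂₁, det_neg, Fintype.card_fin, det_smul, det_one,
      Fintype.card_fin, one_pow, one_mul, ← h]
    ring

lemma e_zero (i j : Fin (2 * g + 2)) (hi : (i : ℕ) < g) (hj : (j : ℕ) < g) :
    eA hf hd i j = 0 ∧ eB hf hd i j = 0 := by
  have e1 : (es g).symm i = Sum.inl ⟨i, by omega⟩ := by
    rw [Equiv.symm_apply_eq]
    apply Fin.ext
    rfl
  have e2 : (es g).symm j = Sum.inl ⟨j, by omega⟩ := by
    rw [Equiv.symm_apply_eq]
    apply Fin.ext
    rfl
  unfold eA eB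
  rw [Matrix.reindex_apply, Matrix.reindex_apply, Matrix.submatrix_apply, Matrix.submatrix_apply,
    e1, e2, Matrix.fromBlocks_apply₁₁, Matrix.fromBlocks_apply₁₁]
  exact ⟨tau_pow hf hd (by simp only; omega), tau_pow hf hd (by simp only; omega)⟩

end ex

end Pool.Agent.N844.QR
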