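import Pool.Agent.N844.QH.Gen
import Pool.Agent.H82R3.EK.FF

/-!
Pencils of quadrics in `P^(2g+1)` over a ring `R` with the discriminant `z F(x, z)`, `F` the homogeneous form
of a monic polynomial `f` of degree `2 g + 1`: smoothness and the number of points of the base locus over the
fields `k` with a homomorphism `R → k`.
-/

set_option autoImplicit false

namespace Pool.Agent.N844.QR

open Finset Matrix Polynomial
open scoped LinearAlgebra.Projectivization
open Pool.Agent.N844.QP hiding ap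
open Pool.Agent.N844.QH

section ring

variable {R : Type*} [CommRing R]

/-- the homogeneous form of `f` of degree `2 g + 1` -/
def hom (g : ℕ) (f : R[X]) (x z : R) : R :=
  ∑ i ∈ range (2 * g + 2), f.coeff i * x ^ i * z ^ (2 * g + 1 - i)

/-- the reversed polynomial -/
noncomputable def ro (g : ℕ) (f : R[X]) : R[X] :=
  ∑ i ∈ range (2 * g + 2), C (f.coeff i) * X ^ (2 * g + 1 - i)

lemma po_eval {g : ℕ} {f : R[X]} (hd : f.natDegree = 2 * g + 1) (x : R) : f.eval x = hom g f x 1 := by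
  rw [eval_eq_sum_range, hd]
  unfold hom
  refine Finset.sum_congr rfl fun i _ => ?_
  rw [one_pow, mul_one]

lemma ro_eval {g : ℕ} (f : R[X]) (x : R) : (ro g f).eval x = hom g f 1 x := by
  unfold ro hom
  rw [eval_finsetSum]
  refine Finset.sum_congr rfl fun i _ => ?_
  rw [eval_mul, eval_C, eval_pow, eval_X, one_pow, mul_one]

lemma ro_eval_zero {g : ℕ} {f : R[X]} (hf : f.Monic) (hd : f.natDegree = 2 * g + 1) {k : Type*}
    [Field k] (φ : R →+* k) : ((ro g f).map φ).eval 0 = 1 := by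
  have h1 : (ro g f).eval 0 = 1 := by
    rw [ro_eval]
    unfold hom
    rw [Finset.sum_range_succ, Finset.sum_eq_zero, zero_add, Nat.sub_self, pow_zero, one_pow, mul_one,
      mul_one, ← hd]
    · exact hf
    · intro i hi
      rw [zero_pow (by have := Finset.mem_range.1 hi; omega), mul_zero]
  have h2 : (0 : k) = φ 0 := by simp
  rw [h2, eval_map, eval₂_hom, h1]
  simp

/-- the pencils over `R` with discriminant `m ^ 2 z F(x, z)` -/
structure IsPen (g : ℕ) (f : R[X]) (m : R)
    (A B : Matrix (Fin (2 * g + 2)) (Fin (2 * g + 2)) R) : Prop where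
  symA : A.IsSymm
  symB : B.IsSymm
  disc : ∀ x z : R, (-1) ^ (g + 1) * (x • A - z • B).det = m ^ 2 * (z * hom g f x z)

end ring

section pencil

variable {R : Type*} [CommRing R] [IsDomain R] [Infinite R] {g : ℕ} {f : R[X]} {m : R}
  {A B : Matrix (Fin (2 * g + 2)) (Fin (2 * g + 2)) R}

lemma IsPen.dp1 (hd : f.natDegree = 2 * g + 1) (h : IsPen g f m A B) :
    C ((-1) ^ (g + 1) : R) * dp A B = C (m ^ 2) * f := by
  apply Polynomial.funext
  intro x
  have h1 := h.disc x 1
  rw [one_smul] at h1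
  rw [eval_mul, eval_C, dp_eval, eval_mul, eval_C, po_eval hd, h1, one_mul]

lemma IsPen.dp2 (h : IsPen g f m A B) :
    C ((-1) ^ (g + 1) : R) * dp B A = C (m ^ 2) * (X * ro g f) := by
  apply Polynomial.funext
  intro x
  have h1 := h.disc 1 x
  rw [one_smul] at h1
  have e : x • B - A = -(A - x • B) := by rw [neg_sub]
  have he : Even (2 * g + 2) := ⟨g + 1, by ring⟩
  rw [eval_mul, eval_C, dp_eval, eval_mul, eval_C, eval_mul, eval_X, ro_eval, e, det_neg,
    Fintype.card_fin, he.neg_one_pow, one_mul, h1]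

omit [IsDomain R] [Infinite R] in
lemma IsPen.detA (h : IsPen g f m A B) : A.det = 0 := by
  have h1 := h.disc 1 0
  rw [one_smul, zero_smul, sub_zero, zero_mul, mul_zero] at h1
  have h2 : (-1 : R) ^ (g + 1) * ((-1 : R) ^ (g + 1) * A.det) = 0 := by rw [h1, mul_zero]
  rwa [← mul_assoc, ← mul_pow, neg_one_mul, neg_neg, one_pow, one_mul] at h2

variable {k : Type*} [Field k] (φ : R →+* k)

lemma IsPen.dpk1 (hd : f.natDegree = 2 * g + 1) (h : IsPen g f m A B) : C ((-1) ^ (g + 1) : k) *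
    dp (A.map φ) (B.map φ) = C ((φ m) ^ 2) * f.map φ := by
  have h1 := congrArg (Polynomial.map φ) (h.dp1 hd)
  rw [Polynomial.map_mul, Polynomial.map_mul, map_C, map_C] at h1
  rw [dp_map]
  simpa using h1

lemma IsPen.dpk2 (h : IsPen g f m A B) : C ((-1) ^ (g + 1) : k) *
    dp (B.map φ) (A.map φ) = C ((φ m) ^ 2) * (X * (ro g f).map φ) := by
  have h1 := congrArg (Polynomial.map φ) h.dp2
  rw [Polynomial.map_mul, Polynomial.map_mul, Polynomial.map_mul, map_C, map_C, map_X] at h1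
  rw [dp_map]
  simpa using h1

omit [IsDomain R] [Infinite R] in
lemma IsPen.detk (h : IsPen g f m A B) : (A.map φ).det = 0 := by
  have e : (A.map φ).det = φ A.det := by
    rw [RingHom.map_det]
    rfl
  rw [e, h.detA, map_zero]

lemma IsPen.ev (hd : f.natDegree = 2 * g + 1) (h : IsPen g f m A B) (x : k) : (-1) ^ (g + 1) *
    (dp (A.map φ) (B.map φ)).eval x = (φ m) ^ 2 * (f.map φ).eval x := by
  have h1 := congrArg (Polynomial.eval x) (h.dpk1 φ hd)
  rwa [eval_mul, eval_C, eval_mul, eval_C] at h1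

lemma IsPen.hf (hd : f.natDegree = 2 * g + 1) (h : IsPen g f m A B) (hm : φ m ≠ 0)
    (hs : (f.map φ).Separable) (x : k) (hx : (dp (A.map φ) (B.map φ)).eval x = 0) :
    (dp (A.map φ) (B.map φ)).derivative.eval x ≠ 0 := by
  have hm2 : (φ m) ^ 2 ≠ 0 := pow_ne_zero 2 hm
  have h1 := h.ev φ hd x
  rw [hx, mul_zero] at h1
  have h2 := (mul_eq_zero.1 h1.symm).resolve_left hm2
  have h3 : (f.map φ).derivative.eval x ≠ 0 := by
    have := hs.aeval_derivative_ne_zero (x := x) (by rw [coe_aeval_eq_eval]; exact h2)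
    rwa [coe_aeval_eq_eval] at this
  have h4 := congrArg (fun p => (derivative p).eval x) (h.dpk1 φ hd)
  simp only [derivative_C_mul, eval_mul, eval_C] at h4
  intro h0
  rw [h0, mul_zero] at h4
  exact mul_ne_zero hm2 h3 h4.symm

lemma IsPen.h0 (hf : f.Monic) (hd : f.natDegree = 2 * g + 1) (h : IsPen g f m A B) (hm : φ m ≠ 0) :
    (dp (B.map φ) (A.map φ)).derivative.eval 0 ≠ 0 := by
  have hm2 : (φ m) ^ 2 ≠ 0 := pow_ne_zero 2 hm
  have h4 := congrArg (fun p => (derivative p).eval 0) (h.dpk2 φ)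
  beta_reduce at h4
  rw [derivative_C_mul, derivative_C_mul, derivative_mul, derivative_X, one_mul, eval_mul, eval_C,
    eval_mul, eval_C, eval_add, ro_eval_zero hf hd φ, eval_mul, eval_X, zero_mul, add_zero,
    mul_one] at h4
  intro h0
  rw [h0, mul_zero] at h4
  exact hm2 h4.symm

/-- smoothness -/
theorem IsPen.smooth (hf : f.Monic) (hd : f.natDegree = 2 * g + 1) (h : IsPen g f m A B)
    (hm : φ m ≠ 0) (hs : (f.map φ).Separable)
    {y : Fin (2 * g + 2) → k} (hy : y ≠ 0) (h6 : qf (A.map φ) y = 0)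
    (h7 : qf (B.map φ) y = 0) :
    LinearIndependent k ![A.map φ *ᵥ y, B.map φ *ᵥ y] :=
  smooth' (h.symA.map _) (h.symB.map _) (fun _ => h.h0 φ hf hd hm) (h.hf φ hd hm hs) hy h6 h7

end pencil

/-- the number of points -/
theorem IsPen.num {R : Type*} [CommRing R] [IsDomain R] [Infinite R] {g : ℕ} (hg : 1 ≤ g) {f : R[X]}
    (hf : f.Monic) (hd : f.natDegree = 2 * g + 1) {m : R}
    {A B : Matrix (Fin (2 * g + 2)) (Fin (2 * g + 2)) R} (h : IsPen g f m A B)
    (k : Type) [Field k] [Finite k] (φ : R →+* k) (h2 : (2 : k) ≠ 0) (hm : φ m ≠ 0)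
    (hs : (f.map φ).Separable) :
    (numP (A.map φ) (B.map φ) : ℤ) =
      ∑ i ∈ range (2 * g), (Nat.card k : ℤ) ^ i + (Nat.card k : ℤ) ^ (g - 1) *
        (Nat.card {P : k × k // P.2 ^ 2 = (f.map φ).eval P.1} - Nat.card k) := by
  classical
  let _ : Fintype k := Fintype.ofFinite k
  have hk : ringChar k ≠ 2 := by
    intro h0
    apply h2
    have := ringChar.spec k 2
    rw [h0] at this
    exact_mod_cast this.2 dvd_rfl
  rw [Pool.Agent.H82R3.EK.card_points hk
    (fun x => (f.map φ).eval x), Nat.card_eq_fintype_card, add_sub_cancel_left]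
  obtain ⟨g', rfl⟩ : ∃ g', g = g' + 1 := ⟨g - 1, by omega⟩
  have h1 := numP_of_count g' _ _ _ (count' hk g' _ _ (h.symA.map φ)
    (h.symB.map φ) (fun _ => h.h0 φ hf hd hm) (h.hf φ hd hm hs))
  rw [h.detk, mul_zero, MulChar.map_zero, add_zero] at h1
  refine Eq.trans h1 ?_
  have e1 : g' + 1 - 1 = g' := rfl
  have e2 : 2 * g' + 2 = 2 * (g' + 1) := rfl
  rw [e1, e2]
  congr 2
  refine Finset.sum_congr rfl fun x _ => ?_
  have e3 := h.ev φ hd x
  have e4 : (-1 : k) ^ (g' + 2) = (-1) ^ (g' + 1 + 1) := rfl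
  rw [e4, e3, map_mul, quadraticChar_sq_one' hm, one_mul]

end Pool.Agent.N844.QR
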